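import Pool.Agent.Helper70.BN.St3

/-!
Module NBRU of BN: different double cosets in the Bruhat decomposition.
-/

set_option autoImplicit false

namespace Pool.Agent.Helper45.BN

open Pool.Agent.Helper70.BN Pool.Agent.Helper75.MX

section

variable {Q : Type} [Group Q] {l : ℕ} {B N : Subgroup Q} {n : Fin l → Q} {q : Fin l → ℕ}

theorem e_symm {x y : Q} (h : x⁻¹ * y ∈ B) : y⁻¹ * x ∈ B := by
  have h1 := B.inv_mem h
  rwa [mul_inv_rev, inv_inv] at h1

theorem e_trans {x y z : Q} (h : x⁻¹ * y ∈ B) (h' : y⁻¹ * z ∈ B) : x⁻¹ * z ∈ B := by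
  have h1 := B.mul_mem h h'
  rwa [show x⁻¹ * y * (y⁻¹ * z) = x⁻¹ * z by group] at h1

theorem e_left (z : Q) {x y : Q} (h : x⁻¹ * y ∈ B) : (z * x)⁻¹ * (z * y) ∈ B := by
  rwa [show (z * x)⁻¹ * (z * y) = x⁻¹ * y by group]

theorem e_right (hb : BNpair B N n q) {x y z : Q} (hx : x ∈ N) (hy : y ∈ N) (hz : z ∈ N)
    (h : x⁻¹ * y ∈ B) : (x * z)⁻¹ * (y * z) ∈ B := by
  have h1 := hb.norm z⁻¹ (N.inv_mem hz) _ h (N.mul_mem (N.inv_mem hx) hy)
  rwa [show z⁻¹ * (x⁻¹ * y) * z⁻¹⁻¹ = (x * z)⁻¹ * (y * z) by group] at h1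

theorem nw_mem (hb : BNpair B N n q) (u : List (Fin l)) : nw n u ∈ N := by
  induction u with
  | nil => exact N.one_mem
  | cons i u ih =>
    show ((i :: u).map n).prod ∈ N
    rw [List.map_cons, List.prod_cons]
    exact N.mul_mem (hb.mem i) ih

theorem nw_cons (i : Fin l) (u : List (Fin l)) : nw n (i :: u) = n i * nw n u := by
  simp [nw]

theorem nw_append (u v : List (Fin l)) : nw n (u ++ v) = nw n u * nw n v := by
  simp [nw]

theorem e_sq (hb : BNpair B N n q) (i : Fin l) {y : Q} (hy : y ∈ N) :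
    (n i * (n i * y))⁻¹ * y ∈ B := by
  have h1 := hb.norm y⁻¹ (N.inv_mem hy) _ (B.inv_mem (hb.sq i))
    (N.inv_mem (N.mul_mem (hb.mem i) (hb.mem i)))
  rwa [show y⁻¹ * (n i * n i)⁻¹ * y⁻¹⁻¹ = (n i * (n i * y))⁻¹ * y by group] at h1

theorem nw_reverse (hb : BNpair B N n q) (u : List (Fin l)) :
    (nw n u.reverse)⁻¹ * (nw n u)⁻¹ ∈ B := by
  induction u with
  | nil => simp [nw, B.one_mem]
  | cons i u ih =>
    rw [List.reverse_cons, nw_append, show nw n [i] = n i by simp [nw], nw_cons]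
    have h1 := e_right hb (nw_mem hb _) (N.inv_mem (nw_mem hb u)) (hb.mem i) ih
    refine e_trans h1 ?_
    have h2 : (n i)⁻¹ * (n i)⁻¹ ∈ B := by
      rw [← mul_inv_rev]
      exact B.inv_mem (hb.sq i)
    have h3 := e_left (nw n u)⁻¹ h2
    rwa [mul_inv_rev (n i) (nw n u)]

theorem word (hb : BNpair B N n q) {x : Q} (hx : x ∈ N) :
    ∃ u : List (Fin l), (nw n u)⁻¹ * x ∈ B := by
  have key : ∀ y ∈ Subgroup.closure (((B ⊓ N : Subgroup Q) : Set Q) ∪ Set.range n),
      y ∈ N ∧ ∃ u : List (Fin l), (nw n u)⁻¹ * y ∈ B := by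
    intro y hy
    induction hy using Subgroup.closure_induction with
    | mem z hz =>
      rcases hz with hz | ⟨i, rfl⟩
      · exact ⟨hz.2, [], by simpa [nw] using hz.1⟩
      · exact ⟨hb.mem i, [i], by simp [nw, B.one_mem]⟩
    | one => exact ⟨N.one_mem, [], by simp [nw, B.one_mem]⟩
    | mul a b _ _ ha hb' =>
      obtain ⟨haN, u, hu⟩ := ha
      obtain ⟨hbN, v, hv⟩ := hb'
      refine ⟨N.mul_mem haN hbN, u ++ v, ?_⟩
      rw [nw_append]
      exact e_trans (e_left (nw n u) hv) (e_right hb (nw_mem hb u) haN hbN hu)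
    | inv a _ ha =>
      obtain ⟨haN, u, hu⟩ := ha
      refine ⟨N.inv_mem haN, u.reverse, ?_⟩
      refine e_trans (nw_reverse hb u) ?_
      have h1 := hb.norm a haN _ (e_symm hu) (N.mul_mem (N.inv_mem haN) (nw_mem hb u))
      rwa [show a * (a⁻¹ * nw n u) * a⁻¹ = (nw n u)⁻¹⁻¹ * a⁻¹ by group] at h1
  rw [hb.genN] at key
  exact (key x hx).2

theorem dc_symm {x y : Q} (h : DC B x y) : DC B y x := by
  obtain ⟨b, hb, b', hb', rfl⟩ := h
  exact ⟨b⁻¹, B.inv_mem hb, b'⁻¹, B.inv_mem hb', by group⟩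

theorem claim (hb : BNpair B N n q) : ∀ (d : ℕ) (x y : Q), x ∈ N → y ∈ N → DC B x y →
    (∃ u : List (Fin l), u.length = d ∧ (nw n u)⁻¹ * x ∈ B) →
    (∀ v : List (Fin l), (nw n v)⁻¹ * y ∈ B → d ≤ v.length) → x⁻¹ * y ∈ B := by
  intro d
  induction d with
  | zero =>
    rintro x y hx hy ⟨b, hbB, b', hb', rfl⟩ ⟨u, hu, hux⟩ _
    obtain rfl := List.length_eq_zero_iff.1 hu
    have hxB : x ∈ B := by simpa [nw] using hux
    exact B.mul_mem (B.inv_mem hxB) (B.mul_mem (B.mul_mem hbB hxB) hb')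
  | succ d ih =>
    rintro x y hx hy hxy ⟨u, hu, hux⟩ hv
    cases u with
    | nil => simp at hu
    | cons i u =>
      rw [List.length_cons, Nat.add_right_cancel_iff] at hu
      rw [nw_cons] at hux
      set x' := nw n u with hx'
      have hx'N : x' ∈ N := nw_mem hb u
      have hwx' : ∃ w : List (Fin l), w.length = d ∧ (nw n w)⁻¹ * x' ∈ B :=
        ⟨u, hu, by rw [hx', inv_mul_cancel]; exact B.one_mem⟩
      obtain ⟨b, hbB, b', hb', hyx⟩ := hxy
      -- `x'` in terms of `y`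
      set c := (n i * x')⁻¹ * x with hc
      have hxc : x = n i * x' * c := by rw [hc, mul_inv_cancel_left]
      have hb1 : (n i * n i)⁻¹ * b⁻¹ ∈ B := B.mul_mem (B.inv_mem (hb.sq i)) (B.inv_mem hbB)
      have hb2 : (c * b')⁻¹ ∈ B := B.inv_mem (B.mul_mem hux hb')
      have hx'e : x' = n i * ((n i * n i)⁻¹ * b⁻¹) * y * (c * b')⁻¹ := by
        rw [hyx, hxc]
        group
      have hdc : ∀ w : Q, DC B w (n i * ((n i * n i)⁻¹ * b⁻¹) * y) → DC B x' w := by
        rintro w ⟨p, hp, p', hp', hw⟩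
        apply dc_symm
        refine ⟨p, hp, p' * (c * b')⁻¹, B.mul_mem hp' hb2, ?_⟩
        rw [hx'e, hw]
        group
      rcases hb.ax i _ hb1 y hy with h | h
      · exfalso
        have h1 := ih x' y hx'N hy (hdc _ h) hwx' (fun v hv' => by
          have := hv v hv'
          omega)
        have h2 := hv u h1
        omega
      · have hzN : n i * y ∈ N := N.mul_mem (hb.mem i) hy
        have h1 := ih x' (n i * y) hx'N hzN (hdc _ h) hwx' (fun v hv' => by
          have h3 : (nw n (i :: v))⁻¹ * y ∈ B := by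
            rw [nw_cons]
            exact e_trans (e_left (n i) hv') (e_sq hb i hy)
          have h4 := hv _ h3
          rw [List.length_cons] at h4
          omega)
        exact e_trans (e_symm hux) (e_trans (e_left (n i) h1) (e_sq hb i hy))

end

theorem hNBRU : StNBRU := by
  classical
  intro Q _ l B N n q hb x hx y hy hxy
  have hmin : ∀ z ∈ N, ∃ d, (∃ u : List (Fin l), u.length = d ∧ (nw n u)⁻¹ * z ∈ B) ∧
      ∀ v : List (Fin l), (nw n v)⁻¹ * z ∈ B → d ≤ v.length := by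
    intro z hz
    have hex : ∃ d, ∃ u : List (Fin l), u.length = d ∧ (nw n u)⁻¹ * z ∈ B := by
      obtain ⟨u, hu⟩ := word hb hz
      exact ⟨u.length, u, rfl, hu⟩
    exact ⟨Nat.find hex, Nat.find_spec hex, fun v hv => Nat.find_min' hex ⟨v, rfl, hv⟩⟩
  obtain ⟨d, hd, hd'⟩ := hmin x hx
  obtain ⟨e, he, he'⟩ := hmin y hy
  rcases le_total d e with h | h
  · exact claim hb d x y hx hy hxy hd (fun v hv => h.trans (he' v hv))
  · exact e_symm (claim hb e y x hy hx (dc_symm hxy) he (fun v hv => h.trans (hd' v hv)))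

end Pool.Agent.Helper45.BN
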